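import Pool.Agent.H.MP_6a070e_co.A

set_option autoImplicit false

namespace Pool.Agent.H.MP_bb0839_co

open Set Matroid
open Pool.Agent.H.MP_6a070e_co (vecM li2 ind)

section
variable {V : Type} [AddCommGroup V] [Module (ZMod 2) V]

/-- `φ` represents `M`. -/
def Rep (M : Matroid ℕ) (φ : ℕ → V) : Prop :=
  ∀ I, M.Indep I ↔ I ⊆ M.E ∧ LinearIndepOn (ZMod 2) φ I

lemma exRep (E : Set ℕ) (hE : E.Finite) (φ : ℕ → V) : ∃ M : Matroid ℕ, M.E = E ∧ Rep M φ := by
  have := hE.to_subtype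
  have h1 : ((vecM (k := ZMod 2) fun x : E => φ x).mapEmbedding
      (Function.Embedding.subtype _)).E = E := by
    rw [mapEmbedding_ground_eq]
    exact Subtype.coe_image_univ E
  refine ⟨_, h1, fun I => ?_⟩
  rw [h1, mapEmbedding_indep_iff, ind, and_comm]
  have h2 : range (Function.Embedding.subtype (· ∈ E)) = E := Subtype.range_coe
  rw [h2]
  refine and_congr_right fun h => ⟨fun h3 => ?_, fun h3 => ?_⟩
  · have := LinearIndepOn.image_of_comp Subtype.val φ h3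
    rwa [show Subtype.val '' (⇑(Function.Embedding.subtype (· ∈ E)) ⁻¹' I) = I from
      image_preimage_eq_of_subset (by rwa [Subtype.range_coe])] at this
  · exact LinearIndepOn.comp_of_image (h3.mono (image_preimage_subset _ _))
      Subtype.val_injective.injOn

variable {M : Matroid ℕ} {φ : ℕ → V}

/-- The support of a functional. -/
def D (M : Matroid ℕ) (φ : ℕ → V) (f : V →ₗ[ZMod 2] ZMod 2) : Set ℕ := {e | e ∈ M.E ∧ f (φ e) ≠ 0}

lemma meets (hM : Rep M φ) (hs : ∀ f : V →ₗ[ZMod 2] ZMod 2, f ≠ 0 → (D M φ f).Nonempty)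
    (X : Set ℕ) : (∀ B, M.IsBase B → (X ∩ B).Nonempty) ↔
      ∃ f : V →ₗ[ZMod 2] ZMod 2, f ≠ 0 ∧ D M φ f ⊆ X := by
  constructor
  · intro h
    by_contra hn
    push Not at hn
    obtain ⟨b, hb, -, hsp, hli⟩ := exists_linearIndepOn_extension (K := ZMod 2) (v := φ)
      (s := ∅) (t := M.E \ X) (by simp) (empty_subset _)
    have htop : Submodule.span (ZMod 2) (φ '' b) = ⊤ := by
      by_contra h1
      obtain ⟨f, hf, hle⟩ := Submodule.exists_le_ker_of_lt_top _ (lt_top_iff_ne_top.2 h1)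
      refine hn f hf fun e he => ?_
      by_contra h2
      exact he.2 (hle (hsp ⟨e, ⟨he.1, h2⟩, rfl⟩))
    have hB : M.IsBase b := by
      refine Indep.isBase_of_forall_insert ((hM b).2 ⟨fun x hx => (hb hx).1, hli⟩)
        fun e he h2 => ?_
      rw [hM, linearIndepOn_insert he.2, htop] at h2
      exact h2.2.2 Submodule.mem_top
    obtain ⟨e, he, heb⟩ := h b hB
    exact (hb heb).2 he
  · rintro ⟨f, hf, hX⟩ B hB
    by_contra hn
    obtain ⟨e, he⟩ := hs f hf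
    have h0 : Submodule.span (ZMod 2) (φ '' B) ≤ LinearMap.ker f := by
      rw [Submodule.span_le]
      rintro _ ⟨x, hx, rfl⟩
      by_contra h2
      exact hn ⟨x, hX ⟨hB.subset_ground hx, h2⟩, hx⟩
    have heB : e ∉ B := fun h2 => hn ⟨e, hX he, h2⟩
    have := (hB.insert_dep (e := e) ⟨he.1, heB⟩).not_indep
    rw [hM, linearIndepOn_insert heB] at this
    exact this ⟨insert_subset he.1 hB.subset_ground, ((hM B).1 hB.indep).2,
      fun h3 => he.2 (h0 h3)⟩

lemma circ (hM : Rep M φ) {K : Set ℕ} (hK : M.IsCircuit K) :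
    ∃ T : Finset ℕ, K = T ∧ ∑ e ∈ T, φ e = 0 := by
  have h := hK.not_indep
  rw [hM, li2, and_iff_right hK.subset_ground] at h
  push Not at h
  obtain ⟨T, hT, h0, hne⟩ := h
  refine ⟨T, (hK.eq_of_not_indep_subset (fun h1 => ?_) hT).symm, h0⟩
  rw [hM, li2] at h1
  exact hne.ne_empty (h1.2 T Subset.rfl h0)

lemma even (hM : Rep M φ) {K : Set ℕ} (hK : M.IsCircuit K) (f : V →ₗ[ZMod 2] ZMod 2) :
    Even (K ∩ D M φ f).ncard := by
  classical
  have hE := hK.subset_ground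
  obtain ⟨T, rfl, h0⟩ := circ hM hK
  have h1 : ↑T ∩ D M φ f = ↑(T.filter fun e => f (φ e) ≠ 0) := by
    ext e
    simp only [D, mem_inter_iff, Finset.mem_coe, mem_ofPred_eq, Finset.mem_filter]
    exact and_congr_right fun h => and_iff_right (hE h)
  rw [h1, ncard_coe_finset, ← ZMod.natCast_eq_zero_iff_even, Finset.card_filter]
  have h2 := congrArg f h0
  rw [map_sum, map_zero] at h2
  refine Eq.trans ?_ h2
  push_cast
  refine Finset.sum_congr rfl fun e _ => ?_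
  generalize f (φ e) = x
  revert x; decide

lemma even' (hM : Rep M φ) (hs : ∀ f : V →ₗ[ZMod 2] ZMod 2, f ≠ 0 → (D M φ f).Nonempty)
    (C K : Set ℕ) (hC : M.IsCircuit C) (hK : M.IsCocircuit K) : Even (C ∩ K).ncard := by
  rw [isCocircuit_iff_minimal] at hK
  simp only [meets hM hs] at hK
  obtain ⟨⟨f, hf, hX⟩, hm⟩ := hK
  rw [(hm ⟨f, hf, Subset.rfl⟩ hX).antisymm hX]
  exact even hM hC f

end

/-- Bit vectors. -/
def bv (x : ℕ) (i : Fin 7) : ZMod 2 := if x.testBit i then 1 else 0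

def p (n x : ℕ) : Bool := Nat.testBit 199931532107794273605284333428918544790 (n &&& x)

lemma bv_xor (x y : ℕ) : bv (x ^^^ y) = bv x + bv y := by
  funext i
  simp only [bv, Nat.testBit_xor, Pi.add_apply]
  cases x.testBit i <;> cases y.testBit i <;> decide

lemma bv0 : bv 0 = 0 := by funext i; simp [bv]

lemma bv_zero : ∀ x < 128, bv x = 0 → x = 0 := by decide +kernel

lemma parity : ∀ x < 128, ∑ i, bv x i = if p x x then 1 else 0 := by decide +kernel

lemma expand (f : (Fin 7 → ZMod 2) →ₗ[ZMod 2] ZMod 2) (v : Fin 7 → ZMod 2) :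
    f v = ∑ i, v i * f (Pi.single i 1) := by
  conv_lhs => rw [← Finset.univ_sum_single v]
  rw [map_sum]
  refine Finset.sum_congr rfl fun i _ => ?_
  rw [← smul_eq_mul, ← map_smul, ← Pi.single_smul, smul_eq_mul, mul_one]

lemma dot {n : ℕ} (hn : n < 128) (x : ℕ) : ∑ i, bv x i * bv n i ≠ 0 ↔ p n x = true := by
  have h2 : ∑ i, bv x i * bv n i = ∑ i, bv (n &&& x) i := by
    refine Finset.sum_congr rfl fun i _ => ?_
    simp only [bv, Nat.testBit_and]
    cases n.testBit i <;> cases x.testBit i <;> decide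
  rw [h2, parity _ (lt_of_le_of_lt Nat.and_le_left hn)]
  simp only [p, Nat.and_self]
  split_ifs with h <;> simp [h]

lemma fnx (f : (Fin 7 → ZMod 2) →ₗ[ZMod 2] ZMod 2) (hf : f ≠ 0) :
    ∃ n < 128, n ≠ 0 ∧ ∀ x, f (bv x) ≠ 0 ↔ p n x = true := by
  set n := Nat.ofBits fun i : Fin 7 => decide (f (Pi.single i 1) = 1) with hn
  have hlt : n < 128 := Nat.ofBits_lt_two_pow _
  have hb : ∀ i, f (Pi.single i 1) = bv n i := by
    intro i
    simp only [bv, hn, Nat.testBit_ofBits_lt _ _ i.2]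
    generalize f (Pi.single i 1) = x
    revert x; decide
  refine ⟨n, hlt, fun h => hf (LinearMap.ext fun v => ?_), fun x => ?_⟩
  · rw [expand]
    simp [hb, h, bv0]
  · rw [expand, ← dot hlt]
    simp only [hb]

lemma xfn {n : ℕ} (hn : n < 128) :
    ∃ f : (Fin 7 → ZMod 2) →ₗ[ZMod 2] ZMod 2, ∀ x, f (bv x) ≠ 0 ↔ p n x = true :=
  ⟨Fintype.linearCombination (ZMod 2) (bv n), fun x => by
    rw [← dot hn, Fintype.linearCombination_apply]; rfl⟩

/-- The listed functionals give exactly the minimal supports. -/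
def Good (c : ℕ → ℕ) (u : Fin 71 → ℕ) : Prop :=
  (∀ n < 128, n ≠ 0 → ∃ i, ∀ e < 13, p (u i) (c e) = true → p n (c e) = true) ∧
  (∀ i, u i < 128 ∧ ∃ e < 13, p (u i) (c e) = true) ∧
  ∀ i j, (∀ e < 13, p (u j) (c e) = true → p (u i) (c e) = true) → i = j

variable {c : ℕ → ℕ} {u : Fin 71 → ℕ} {M : Matroid ℕ}

lemma spans (h : Good c u) (hE : M.E = Iio 13) (f : (Fin 7 → ZMod 2) →ₗ[ZMod 2] ZMod 2)
    (hf : f ≠ 0) : (D M (fun e => bv (c e)) f).Nonempty := by
  obtain ⟨n, h1, h2, h3⟩ := fnx f hf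
  obtain ⟨i, hi⟩ := h.1 n h1 h2
  obtain ⟨e, he, h4⟩ := (h.2.1 i).2
  exact ⟨e, hE ▸ he, (h3 _).2 (hi e he h4)⟩

lemma hyp (h : Good c u) (hE : M.E = Iio 13) (hM : Rep M fun e => bv (c e)) :
    ∃ β : Fin 71 ≃ {H : Set ℕ // H ⊆ M.E ∧ M.IsCocircuit (M.E \ H)},
      ∀ i, (β i).1 = {e | e < 13 ∧ p (u i) (c e) = false} := by
  let S : Fin 71 → Set ℕ := fun i => {e | e < 13 ∧ p (u i) (c e) = true}
  have h1 : ∀ X, (∀ B, M.IsBase B → (X ∩ B).Nonempty) ↔ ∃ i, S i ⊆ X := by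
    intro X
    rw [meets hM (spans h hE)]
    constructor
    · rintro ⟨f, hf, hX⟩
      obtain ⟨n, h1, h2, h3⟩ := fnx f hf
      obtain ⟨i, hi⟩ := h.1 n h1 h2
      exact ⟨i, fun e he => hX ⟨hE ▸ he.1, (h3 _).2 (hi e he.1 he.2)⟩⟩
    · rintro ⟨i, hX⟩
      obtain ⟨f, hf⟩ := xfn (h.2.1 i).1
      obtain ⟨e, -, h4⟩ := (h.2.1 i).2
      exact ⟨f, by rintro rfl; exact (hf _).2 h4 rfl,
        fun e he => hX ⟨show e ∈ Iio 13 from hE ▸ he.1, (hf _).1 he.2⟩⟩
  have h2 : ∀ i j, S j ⊆ S i → i = j := fun i j h3 => h.2.2 i j fun e he h4 => (h3 ⟨he, h4⟩).2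
  have h3 : ∀ X, M.IsCocircuit X ↔ ∃ i, X = S i := by
    intro X
    rw [isCocircuit_iff_minimal]
    simp only [h1]
    constructor
    · rintro ⟨⟨i, hX⟩, hm⟩
      exact ⟨i, (hm ⟨i, Subset.rfl⟩ hX).antisymm hX⟩
    · rintro ⟨i, rfl⟩
      refine ⟨⟨i, Subset.rfl⟩, ?_⟩
      rintro Y ⟨j, hj⟩ hY
      rw [h2 i j (hj.trans hY)]
      exact hj
  have h4 : ∀ i, M.E \ {e | e < 13 ∧ p (u i) (c e) = false} = S i := by
    intro i
    ext e
    simp only [hE, mem_sdiff, mem_Iio, mem_ofPred_eq, S]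
    cases p (u i) (c e) <;> simp
  refine ⟨Equiv.ofBijective (fun i => ⟨{e | e < 13 ∧ p (u i) (c e) = false},
    fun e he => hE ▸ he.1, (h3 _).2 ⟨i, h4 i⟩⟩) ⟨fun i j hij => ?_, ?_⟩, fun _ => rfl⟩
  · refine h2 i j ?_
    rw [← h4, ← h4, show {e | e < 13 ∧ p (u i) (c e) = false} = _ from congrArg Subtype.val hij]
  · rintro ⟨H, hH, hc⟩
    obtain ⟨i, hi⟩ := (h3 _).1 hc
    refine ⟨i, Subtype.ext ?_⟩
    show {e | e < 13 ∧ p (u i) (c e) = false} = H
    rw [← sdiff_sdiff_cancel_left hH, hi, ← h4, sdiff_sdiff_cancel_left fun e he => hE ▸ he.1]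

/-- Apply a packed matrix. -/
def ap (a x : ℕ) : ℕ :=
  (if x.testBit 0 then a else 0) ^^^ (if x.testBit 1 then a >>> 7 else 0) ^^^
  (if x.testBit 2 then a >>> 14 else 0) ^^^ (if x.testBit 3 then a >>> 21 else 0) ^^^
  (if x.testBit 4 then a >>> 28 else 0) ^^^ (if x.testBit 5 then a >>> 35 else 0) ^^^
  (if x.testBit 6 then a >>> 42 else 0)

lemma bv_mod (x : ℕ) : bv (x % 128) = bv x := by
  funext i
  have : (x % 128).testBit i = x.testBit i := by
    rw [show 128 = 2 ^ 7 from rfl, Nat.testBit_mod_two_pow, decide_eq_true i.2, Bool.true_and]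
  simp only [bv, this]

lemma lin (a : ℕ) : ∃ L : (Fin 7 → ZMod 2) →ₗ[ZMod 2] (Fin 7 → ZMod 2),
    ∀ x, L (bv x) = bv (ap a x % 128) := by
  refine ⟨Fintype.linearCombination (ZMod 2) fun j : Fin 7 => bv (a >>> (7 * j.val)), fun x => ?_⟩
  have h : ∀ (j : Fin 7) y, bv x j • bv y = bv (if x.testBit j then y else 0) := by
    intro j y
    unfold bv
    split_ifs
    · simp
    · simp [funext_iff]
  rw [Fintype.linearCombination_apply, Fin.sum_univ_seven, bv_mod]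
  simp only [h, ap, bv_xor]
  rfl

end Pool.Agent.H.MP_bb0839_co
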