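import Pool.Agent.H.MP_bb0839_co.A

set_option autoImplicit false

namespace Pool.Agent.H.MP_bb0839_co

open Set Matroid
open Pool.Agent.H.MP_6a070e_co (li2)

def cA (e : ℕ) : ℕ := (1242794706150023689582703018 >>> (7 * e)) % 128

def cB (e : ℕ) : ℕ := (1242795075330351480765967848 >>> (7 * e)) % 128

def uA (i : Fin 71) : ℕ :=
  (399406831871785250091757070820158988047091971614039949993194554580472825952223767533671539628039301523989936191857666095589824444673810891738710065409
    >>> (7 * i.val)) % 128

def uB (i : Fin 71) : ℕ :=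
  (290841392315882669755422051136486974910839715847654251331244436676723807884982075417087972750752903711420874913442490501596333923932573230556801712385
    >>> (7 * i.val)) % 128

def tS : List ℕ :=
  [2932636360396800, 2948188772237824, 2948188772237328, 2598561187365392, 3038502799540736,
   3038502799540240, 2912660861682192, 3318354278352130, 3318354278350929, 2756478452639296,
   3317229265838340, 3317229265559665, 2744823454908944, 3571574544740864, 3571574544740368,
   2921127567558480, 3536063809192464, 3553655947134721, 3553655948312611, 2902710777569808,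
   3571213773324801, 3553621589381170, 3107578791854080, 3107578775076864, 2544706651423248,
   3106535383303936, 3106604136464416, 2545853138998320, 2826876984775171, 2826876984774675,
   3107243759530512, 2826846951703043, 2826846951702547, 3378421396865280, 2815329692549152,
   3096667127547200, 3378387054768384, 3378318283907072, 3378386919626501, 3096250597982464,
   2533300594282560, 200691141313024, 200691141312528, 151165674390032, 200661076886016,
   200661076885520, 223750616273424, 221023379132416, 197925011460096, 146277996442128,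
   106422629368064, 158932698136613, 176498728239616, 211521284096512, 211521284096016,
   211864026239504, 211146875621632, 158382059225168, 123199803098145, 175924015334976,
   11493433487888, 11570641916160, 10329396363314, 9921516142853, 12094768435731, 509834441232,
   315420267008, 315420266512, 689395138816, 40349205553, 3070571024]

def tT : List ℕ :=
  [1878470706892800, 2388850887361027, 2388850887360531, 1873314561700368, 3285860435100165,
   3285860435099669, 2388826462241296, 3318807265280000, 3318807264231424, 3280669463610112,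
   3315715876585504, 3315715020964608, 3097051676238352, 3571214850732544, 3571214850732048,
   2546469652423680, 3378489994863120, 3389829328929792, 3389830050611456, 1420586265215504,
   3571213851099648, 3389815826419712, 222582394619394, 222582394617953, 134965211955728,
   219490696562243, 219492425023747, 184445491613744, 189620762444288, 189620762443792,
   222604673942032, 189622890267136, 189622890266640, 3387631295873056, 13235042713860,
   211108533175552, 3387621100236832, 3378318202438401, 3387595862377521, 211107446980640,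
   841947874864, 1882404876734976, 1882404876734480, 2252536674271760, 1882402733642240,
   1882402733641744, 3272185262113301, 3096911947366450, 193514047178289, 8843348423184,
   2542072951234592, 2252596110950656, 12133424169473, 3103921476428288, 3103921476427792,
   3254556367520272, 3096797957586976, 2252555812894275, 2374969543753987, 12126068473920,
   10997637591568, 11033908346912, 687354351616, 714440967201, 175947717280272, 123169327690256,
   573113451008, 573113450512, 9926743188769, 549879681024, 123146917130768]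

def tL : List ℕ :=
  [70446141743105, 70519194910977, 70519194920705, 212557935747073, 72576374210817, 72576374342913,
   72443218639617, 142940951315004, 142940953423489, 213314099610114, 142949513248987,
   142949659128578, 213307407537409, 282578911068417, 282585353526529, 70450751345924,
   283142502094081, 282057437745156, 282058507299202, 72453502089985, 282599720894977,
   282055286029314, 140810629316840, 141360385142145, 214890103898625, 143018120315012,
   143670959831810, 214860042371318, 73950881186049, 72851436667137, 144865154236673,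
   72920172921857, 72645278368769, 285014331884123, 72141777207584, 144130785215548,
   285724611986523, 282252468149762, 283074886189316, 143679274655323, 213440635371652,
   71468809527297, 256186762993665, 352131493134593, 396924251348993, 256186764566529,
   107760748003585, 169337678674792, 330984730558594, 352134910705921, 22059354953051,
   164387475161616, 550323034817025, 213313849988353, 213313849988353, 81369834423297,
   340868203282779, 41241117982852, 497138634064246, 444781967736962, 352122904084737,
   385967252865243, 201395316667140, 137589310915675, 116831922750465, 212072608611073,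
   449589371732225, 301214894657537, 269532048430427, 29894049013366, 299987606995457]

def tK : List ℕ :=
  [9363146215425, 20358262948097, 20358262951681, 9367441179649, 141304440881409, 141304441013505,
   20358241944577, 142940980675114, 142940872311297, 141308727427308, 142958053406210,
   142958103412972, 141655034364929, 282578948817153, 282604118851073, 36507230425206,
   281968370779137, 281552294534262, 283098483654883, 246926507324929, 282589195705345,
   284576061292714, 164931249836034, 384833608685569, 266636011537409, 178142366942210,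
   120967869366499, 339221061698050, 35751425278209, 106120169455873, 318862786232577,
   114916149238785, 106120056249345, 283092040330896, 558603463360867, 459614923588664,
   282611000076164, 284520368324844, 285428661895542, 252915499237896, 171333472240130,
   9912801363969, 9927833749505, 20496724918529, 9919780685825, 9927834306561, 141306589282561,
   144680980445832, 449712146530434, 301748365197569, 36250726961168, 18726342666339,
   78967285514753, 141308773598209, 141308773598209, 141026867297025, 141532981362952,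
   19038117846018, 20373026898275, 26362677952642, 354528142688513, 138439698825730,
   518930340791338, 532990414160502, 150116090584065, 345800819474945, 416047158264065,
   70439193028097, 447159952310840, 304745424365576, 293027482468865]

def fS (i : Fin 71) (x : ℕ) : ℕ := (tS.getD i 0 >>> (4 * x)) % 16

def fT (i : Fin 71) (x : ℕ) : ℕ := (tT.getD i 0 >>> (4 * x)) % 16

lemma gA : Good cA uA := by unfold Good; decide +kernel

lemma gB : Good cB uB := by unfold Good; decide +kernel

lemma d1 : ∀ i, ∀ x < 13, p (uA i) (cA x) = false → (fS i x < 13 ∧ p (uB i) (cB (fS i x)) = false) ∧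
    fT i (fS i x) = x ∧ ap (tL.getD i 0) (cA x) % 128 = cB (fS i x) ∧
    ap (tK.getD i 0) (cB (fS i x)) % 128 = cA x := by decide +kernel

lemma d2 : ∀ i, ∀ y < 13, p (uB i) (cB y) = false → (fT i y < 13 ∧ p (uA i) (cA (fT i y)) = false) ∧
    fS i (fT i y) = y := by decide +kernel

variable {M N : Matroid ℕ}

lemma iso (hE : M.E = Iio 13) (hM : Rep M fun e => bv (cA e)) (hF : N.E = Iio 13)
    (hN : Rep N fun e => bv (cB e)) (i : Fin 71) (H K : Set ℕ)
    (hH : H = {e | e < 13 ∧ p (uA i) (cA e) = false})
    (hK : K = {e | e < 13 ∧ p (uB i) (cB e) = false}) :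
    ∃ e : H ≃ K, ∀ I : Set H, (M.restrict H).Indep (Subtype.val '' I) ↔
      (N.restrict K).Indep (Subtype.val '' (e '' I)) := by
  subst hH hK
  refine ⟨⟨fun x => ⟨fS i x, (d1 i x x.2.1 x.2.2).1⟩, fun y => ⟨fT i y, (d2 i y y.2.1 y.2.2).1⟩,
    fun x => Subtype.ext (d1 i x x.2.1 x.2.2).2.1, fun y => Subtype.ext (d2 i y y.2.1 y.2.2).2⟩,
    fun I => ?_⟩
  rw [restrict_indep_iff, restrict_indep_iff, and_iff_left (Subtype.coe_image_subset _ _),
    and_iff_left (Subtype.coe_image_subset _ _), hM, hN, hE, hF,
    and_iff_right ((Subtype.coe_image_subset _ _).trans fun e he => he.1),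
    and_iff_right ((Subtype.coe_image_subset _ _).trans fun e he => he.1), image_image]
  have hJ := Subtype.coe_image_subset _ I
  show _ ↔ LinearIndepOn (ZMod 2) _ ((fun x => fS i x.1) '' I)
  rw [← image_image (fS i) Subtype.val]
  generalize Subtype.val '' I = J at hJ
  obtain ⟨L, hL⟩ := lin (tL.getD i 0)
  obtain ⟨K, hK⟩ := lin (tK.getD i 0)
  constructor
  · intro h
    refine LinearIndepOn.image_of_comp _ _ (LinearIndepOn.of_comp K (h.congr fun x hx => ?_))
    show _ = K (bv (cB (fS i x)))
    rw [hK, (d1 i x (hJ hx).1 (hJ hx).2).2.2.2]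
  · intro h
    have h2 := h.comp_of_image fun x hx y hy h3 => by
      rw [← (d1 i x (hJ hx).1 (hJ hx).2).2.1, h3, (d1 i y (hJ hy).1 (hJ hy).2).2.1]
    refine LinearIndepOn.of_comp L (h2.congr fun x hx => ?_)
    show bv (cB (fS i x)) = L (bv (cA x))
    rw [hL, (d1 i x (hJ hx).1 (hJ hx).2).2.2.1]

def xs (l : List ℕ) : ℕ := l.foldr (fun a b => cB a ^^^ b) 0

lemma xs_bv (l : List ℕ) : xs l < 2 ^ 7 ∧ (l.map fun a => bv (cB a)).sum = bv (xs l) := by
  induction l with
  | nil => exact ⟨by decide, bv0.symm⟩
  | cons a l ih =>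
    exact ⟨Nat.xor_lt_two_pow (Nat.mod_lt _ (by norm_num)) ih.1, by
      rw [List.map_cons, List.sum_cons, ih.2, ← bv_xor]; rfl⟩

def P5 (a7 a10 a12 a3 a5 a8 a0 a6 a9 a11 a4 : ℕ) : Prop :=
  ∀ a1 < 13, ∀ a2 < 13, xs [a1, a2, a4, a8, a10] = 0 →
    [a7, a10, a12, a3, a5, a8, a0, a6, a9, a11, a4, a1, a2].Nodup →
    False

instance (a7 a10 a12 a3 a5 a8 a0 a6 a9 a11 a4 : ℕ) :
    Decidable (P5 a7 a10 a12 a3 a5 a8 a0 a6 a9 a11 a4) := by
  unfold P5; infer_instance

def P4 (a7 a10 a12 a3 a5 a8 a0 a6 a9 a11 : ℕ) : Prop :=
  ∀ a4 < 13, xs [a0, a3, a4, a5, a9] = 0 →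
    [a7, a10, a12, a3, a5, a8, a0, a6, a9, a11, a4].Nodup →
    P5 a7 a10 a12 a3 a5 a8 a0 a6 a9 a11 a4

instance (a7 a10 a12 a3 a5 a8 a0 a6 a9 a11 : ℕ) :
    Decidable (P4 a7 a10 a12 a3 a5 a8 a0 a6 a9 a11) := by
  unfold P4; infer_instance

def P3 (a7 a10 a12 a3 a5 a8 a0 a6 : ℕ) : Prop :=
  ∀ a9 < 13, ∀ a11 < 13, xs [a5, a9, a10, a11] = 0 →
    [a7, a10, a12, a3, a5, a8, a0, a6, a9, a11].Nodup →
    P4 a7 a10 a12 a3 a5 a8 a0 a6 a9 a11

instance (a7 a10 a12 a3 a5 a8 a0 a6 : ℕ) :
    Decidable (P3 a7 a10 a12 a3 a5 a8 a0 a6) := by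
  unfold P3; infer_instance

def P2 (a7 a10 a12 a3 a5 a8 : ℕ) : Prop :=
  ∀ a0 < 13, ∀ a6 < 13, xs [a0, a5, a6, a10] = 0 →
    [a7, a10, a12, a3, a5, a8, a0, a6].Nodup →
    P3 a7 a10 a12 a3 a5 a8 a0 a6

instance (a7 a10 a12 a3 a5 a8 : ℕ) :
    Decidable (P2 a7 a10 a12 a3 a5 a8) := by
  unfold P2; infer_instance

def P1 (a7 a10 a12 : ℕ) : Prop :=
  ∀ a3 < 13, ∀ a5 < 13, ∀ a8 < 13, xs [a3, a5, a7, a8] = 0 →
    [a7, a10, a12, a3, a5, a8].Nodup →
    P2 a7 a10 a12 a3 a5 a8

instance (a7 a10 a12 : ℕ) :
    Decidable (P1 a7 a10 a12) := by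
  unfold P1; infer_instance

def P0 : Prop :=
  ∀ a7 < 13, ∀ a10 < 13, ∀ a12 < 13, xs [a7, a10, a12] = 0 →
    [a7, a10, a12].Nodup →
    P1 a7 a10 a12

instance :
    Decidable (P0 ) := by
  unfold P0; infer_instance

lemma non : P0 := by decide +kernel

lemma noiso (hE : M.E = Iio 13) (hM : Rep M fun e => bv (cA e)) (hF : N.E = Iio 13)
    (hN : Rep N fun e => bv (cB e)) : ¬ ∃ e : M.E ≃ N.E, ∀ I : Set M.E,
      M.Indep (Subtype.val '' I) ↔ N.Indep (Subtype.val '' (e '' I)) := by
  rintro ⟨e, he⟩
  classical
  let f : ℕ → ℕ := fun x => if h : x ∈ M.E then e ⟨x, h⟩ else 0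
  have hf : ∀ x : M.E, f x = e x := fun x => dif_pos x.2
  have hE' : ∀ x, x < 13 → x ∈ M.E := fun x hx => hE ▸ hx
  have f1 : ∀ x, x < 13 → f x < 13 := fun x hx => by
    have := (e ⟨x, hE' x hx⟩).2
    rw [← hf] at this
    exact (show f x ∈ Iio 13 from hF ▸ this)
  have f2 : ∀ x, x < 13 → ∀ y, y < 13 → f x = f y → x = y := fun x hx y hy h => by
    have h1 : (e ⟨x, hE' x hx⟩ : ℕ) = e ⟨y, hE' y hy⟩ := by rw [← hf, ← hf]; exact h
    exact congrArg Subtype.val (e.injective (Subtype.ext h1))
  have f3 : ∀ J : Set ℕ, (∀ x ∈ J, x < 13) → (M.Indep J ↔ N.Indep (f '' J)) := by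
    intro J hJ
    have h1 : Subtype.val '' (Subtype.val ⁻¹' J : Set M.E) = J :=
      image_preimage_eq_of_subset (by rw [Subtype.range_coe]; exact fun x hx => hE' x (hJ x hx))
    have := he (Subtype.val ⁻¹' J)
    rw [h1, image_image] at this
    rw [this, ← h1, image_image, h1]
    simp only [hf]
  have nd : ∀ l : List ℕ, (∀ x ∈ l, x < 13) → l.Nodup → (l.map f).Nodup := fun l h1 h2 =>
    h2.map_on fun x hx y hy => f2 x (h1 x hx) y (h1 y hy)
  have key : ∀ l : List ℕ, (∀ x ∈ l, x < 13) → l.Nodup → l.toFinset ≠ ∅ →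
      (∀ S ∈ l.toFinset.powerset, ∑ x ∈ S, bv (cA x) = 0 ↔ S = ∅ ∨ S = l.toFinset) →
      xs (l.map f) = 0 := by
    intro l h1 h2 h3 h4
    have h1' : ∀ x ∈ l.toFinset, x < 13 := fun x hx => h1 x (List.mem_toFinset.1 hx)
    refine bv_zero _ (xs_bv _).1 ?_
    rw [← (xs_bv _).2, List.map_map, ← List.sum_toFinset _ h2]
    have h5 : ¬ N.Indep (f '' l.toFinset) := by
      rw [← f3 _ h1', hM, li2]
      exact fun h => h3 (h.2 _ Subset.rfl ((h4 _ (Finset.mem_powerset_self _)).2 (.inr rfl)))
    rw [hN, li2, and_iff_right (by rintro _ ⟨x, hx, rfl⟩; exact hF ▸ f1 x (h1' x hx))] at h5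
    push Not at h5
    obtain ⟨T, hT, h0, hne⟩ := h5
    rw [← Finset.coe_image, Finset.coe_subset, Finset.subset_image_iff] at hT
    obtain ⟨S, hS, rfl⟩ := hT
    have h6 : ¬ M.Indep S := by
      rw [f3 _ fun x hx => h1' x (hS hx), hN, li2, ← Finset.coe_image]
      exact fun h => hne.ne_empty (h.2 _ Subset.rfl h0)
    rw [hM, li2, and_iff_right (show (S : Set ℕ) ⊆ M.E from fun x hx => hE' x (h1' x (hS hx)))] at h6
    push Not at h6
    obtain ⟨R, hR, h7, h8⟩ := h6
    have h9 := ((h4 R (Finset.mem_powerset.2 ((Finset.coe_subset.1 hR).trans hS))).1 h7).resolve_left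
      h8.ne_empty
    have h10 : S = l.toFinset := hS.antisymm (h9 ▸ Finset.coe_subset.1 hR)
    rw [Finset.sum_image fun x hx y hy => f2 x (h1' x (hS hx)) y (h1' y (hS hy)), h10] at h0
    exact h0
  exact non _ (f1 7 (by decide)) _ (f1 10 (by decide)) _ (f1 12 (by decide))
    (key [7, 10, 12] (by decide) (by decide) (by decide) (by decide +kernel))
    (nd [7, 10, 12] (by decide) (by decide))
    _ (f1 3 (by decide)) _ (f1 5 (by decide)) _ (f1 8 (by decide))
    (key [3, 5, 7, 8] (by decide) (by decide) (by decide) (by decide +kernel))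
    (nd [7, 10, 12, 3, 5, 8] (by decide) (by decide))
    _ (f1 0 (by decide)) _ (f1 6 (by decide))
    (key [0, 5, 6, 10] (by decide) (by decide) (by decide) (by decide +kernel))
    (nd [7, 10, 12, 3, 5, 8, 0, 6] (by decide) (by decide))
    _ (f1 9 (by decide)) _ (f1 11 (by decide))
    (key [5, 9, 10, 11] (by decide) (by decide) (by decide) (by decide +kernel))
    (nd [7, 10, 12, 3, 5, 8, 0, 6, 9, 11] (by decide) (by decide))
    _ (f1 4 (by decide))
    (key [0, 3, 4, 5, 9] (by decide) (by decide) (by decide) (by decide +kernel))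
    (nd [7, 10, 12, 3, 5, 8, 0, 6, 9, 11, 4] (by decide) (by decide))
    _ (f1 1 (by decide)) _ (f1 2 (by decide))
    (key [1, 2, 4, 8, 10] (by decide) (by decide) (by decide) (by decide +kernel))
    (nd [7, 10, 12, 3, 5, 8, 0, 6, 9, 11, 4, 1, 2] (by decide) (by decide))

theorem main :
    ¬ (∀ (M N : Matroid ℕ), M.Finite → N.Finite → 2 ≤ M.eRank →
    (∀ C D : Set ℕ, M.IsCircuit C → M.IsCocircuit D → Even (C ∩ D).ncard) →
    ∀ α : {H : Set ℕ // H ⊆ M.E ∧ M.IsCocircuit (M.E \ H)} ≃
          {H : Set ℕ // H ⊆ N.E ∧ N.IsCocircuit (N.E \ H)},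
      (∀ H : {H : Set ℕ // H ⊆ M.E ∧ M.IsCocircuit (M.E \ H)},
        ∃ e : ↥H.1 ≃ ↥(α H).1, ∀ I : Set ↥H.1,
          (M.restrict H.1).Indep (Subtype.val '' I) ↔
            (N.restrict (α H).1).Indep (Subtype.val '' (e '' I))) →
      ∃ e : ↥M.E ≃ ↥N.E, ∀ I : Set ↥M.E,
        M.Indep (Subtype.val '' I) ↔ N.Indep (Subtype.val '' (e '' I))) := by
  intro h
  obtain ⟨M, hE, hM⟩ := exRep (Iio 13) (finite_Iio _) fun e => bv (cA e)
  obtain ⟨N, hF, hN⟩ := exRep (Iio 13) (finite_Iio _) fun e => bv (cB e)
  obtain ⟨β, hβ⟩ := hyp gA hE hM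
  obtain ⟨γ, hγ⟩ := hyp gB hF hN
  refine noiso hE hM hF hN (h M N ⟨hE ▸ finite_Iio _⟩ ⟨hF ▸ finite_Iio _⟩ ?_
    (even' hM (spans gA hE)) (β.symm.trans γ) fun H => ?_)
  · have h1 : M.Indep ({2, 6} : Finset ℕ) := by
      rw [hM, li2, hE]
      refine ⟨fun x hx => ?_, fun T hT => ?_⟩
      · have : ∀ x ∈ ({2, 6} : Finset ℕ), x < 13 := by decide
        exact this x hx
      · have : ∀ T ∈ ({2, 6} : Finset ℕ).powerset, ∑ e ∈ T, bv (cA e) = 0 → T = ∅ := by
          decide +kernel
        exact this T (Finset.mem_powerset.2 (Finset.coe_subset.1 hT))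
    have h2 := h1.encard_le_eRank
    rw [encard_coe_eq_coe_finsetCard] at h2
    exact h2
  · obtain ⟨i, rfl⟩ := β.surjective H
    exact iso hE hM hF hN i _ _ (hβ i) (by rw [Equiv.trans_apply, Equiv.symm_apply_apply, hγ])

end Pool.Agent.H.MP_bb0839_co
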